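import Pool.Agent.P8H73.Pk.Div

/-!
# Peak sets for `A_α` that are not zero sets for the Gevrey class `G_α`

For every `α ∈ (0, 1]` the inclusion `P_α ⊂ Z(G_α)` fails, already for countable compact sets.

For `0 < α < 1` the set consists of the point `1` and of the points `exp (i x)` with
`x = 4 ^ (-k) / 2 * (1 + j / N_k)`, `0 ≤ j < N_k`, `N_k` about `4 ^ (k (1 - α) / α) (k + 1) ^ (-1/α)`,
so that the complementary arcs satisfy `∑ |I| ^ (1 - α) = ∞`. All points lie on one side of `1`.

* It is a peak set: with `w_n = 1 - conj ζ_n z`, `t_n = |1 - ζ_n| ^ (1/α)` and small `η` the function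
  `F(z) = 1 / (1 - z) + ∑ 1 / (w_n ^ α + w_n / (η t_n ^ (1 - α)))` has positive real part, there is
  no cancellation in the sum, `|F| ≥ c dist(z, E) ^ (-α)`, and `1 / F` is Lipschitz of order `α`.
  The point mass at `1` makes `F` large in all complementary arcs; the masses near the other points
  can then be much smaller than `|I| ^ (1 - α)`.
* It is no zero set for `G_α`: a function of `G_α` with all derivatives vanishing on `E` is
  `O(exp (-c dist(z, E) ^ (-α)))`, and Jensen's inequality gives a contradiction.

For `α = 1` the set is `{1}`.
-/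

set_option autoImplicit false

namespace Pool.Agent.Results.MP_129fce_an.PeakSetsNotGevreyZero

open Pool.Agent.P8H73.Pk

/-- **Q1 is answered in the negative, for every `α`.** For every `α ∈ (0, 1]` there is a countable
closed subset `E` of the unit circle which is a peak set for `A_α` but not a zero set for `G_α`. -/
theorem result : ∀ α : ℝ, 0 < α → α ≤ 1 →
    ∃ E : Set ℂ, E.Countable ∧ IsPeakSet α E ∧ ¬ IsGevreyZeroSet α E :=
  main_all

end Pool.Agent.Results.MP_129fce_an.PeakSetsNotGevreyZero
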